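import Pool.Agent.helper11.VQ.Spec3b
import Pool.Agent.helper40.VQ.VCD

/-!
# MP_07c750_an, project VQ, row FST: the flow for short times
-/

set_option autoImplicit false

open scoped MatrixGroups ContDiff Topology UpperHalfPlane ComplexConjugate ENNReal
open UpperHalfPlane MeasureTheory Filter Set

namespace Pool.Agent.VQ

open Pool.Agent.RS

noncomputable section

/-! ## Distances -/

theorem FST_sq_le_cosh (x : ℝ) : x ^ 2 ≤ 2 * (Real.cosh x - 1) := by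
  have h1 : Real.cosh x = 1 + 2 * Real.sinh (x / 2) ^ 2 := by
    have h := Real.cosh_two_mul (x / 2)
    have h2 := Real.cosh_sq (x / 2)
    rw [show 2 * (x / 2) = x by ring] at h
    rw [h, h2]
    ring
  have h3 : (x / 2) ^ 2 ≤ Real.sinh (x / 2) ^ 2 := by
    rcases le_total 0 (x / 2) with h | h
    · have := Real.self_le_sinh_iff.2 h
      nlinarith
    · have := Real.sinh_le_self_iff.2 h
      nlinarith
  rw [h1]
  nlinarith

theorem FST_cosh (y : SL(2, ℝ)) : Real.cosh (dist (y • I : ℍ) I) =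
    1 + ((y.1 0 1 + y.1 1 0) ^ 2 + (y.1 0 0 - y.1 1 1) ^ 2) / 2 := by
  have hd : y.1 0 0 * y.1 1 1 - y.1 0 1 * y.1 1 0 = 1 := by
    have := y.2
    rwa [Matrix.det_fin_two] at this
  have hz := VCD_coe y I
  rw [UpperHalfPlane.coe_I] at hz
  have hne := VCD_sl y Complex.I (by simp)
  set a := y.1 0 0 with ha
  set b := y.1 0 1 with hb
  set c := y.1 1 0 with hc
  set d := y.1 1 1 with hd'
  have hN : 0 < c ^ 2 + d ^ 2 := by
    by_contra h
    have h1 : c = 0 := by nlinarith [sq_nonneg c, sq_nonneg d]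
    have h2 : d = 0 := by nlinarith [sq_nonneg c, sq_nonneg d]
    rw [h1, h2] at hd
    simp at hd
  have hNS : Complex.normSq ((c : ℂ) * Complex.I + (d : ℂ)) = c ^ 2 + d ^ 2 := by
    rw [Complex.normSq_apply]
    simp
    ring
  have him : (y • I : ℍ).im = 1 / (c ^ 2 + d ^ 2) := by
    rw [← UpperHalfPlane.coe_im, hz, Complex.div_im, hNS]
    simp
    field_simp
    nlinarith
  have hdist : dist ((y • I : ℍ) : ℂ) Complex.I ^ 2 = ((b + c) ^ 2 + (a - d) ^ 2) / (c ^ 2 + d ^ 2) := by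
    have h1 : ((a : ℂ) * Complex.I + b) / ((c : ℂ) * Complex.I + d) - Complex.I =
        (((b + c : ℝ) : ℂ) + ((a - d : ℝ) : ℂ) * Complex.I) / ((c : ℂ) * Complex.I + d) := by
      rw [div_sub' hne, div_left_inj' hne]
      push_cast
      linear_combination (-(c : ℂ)) * Complex.I_sq
    rw [dist_eq_norm, hz, h1, norm_div, div_pow, ← Complex.normSq_eq_norm_sq, ← Complex.normSq_eq_norm_sq, hNS, Complex.normSq_add_mul_I]
  rw [UpperHalfPlane.cosh_dist, UpperHalfPlane.coe_I, hdist, him, UpperHalfPlane.I_im]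
  field_simp

theorem FST_dist (y : SL(2, ℝ)) : dist (y • I : ℍ) I ≤ |y.1 0 1 + y.1 1 0| + |y.1 0 0 - y.1 1 1| := by
  have h1 := FST_sq_le_cosh (dist (y • I : ℍ) I)
  rw [FST_cosh] at h1
  have h2 : dist (y • I : ℍ) I ^ 2 ≤ (|y.1 0 1 + y.1 1 0| + |y.1 0 0 - y.1 1 1|) ^ 2 := by
    have h3 := sq_abs (y.1 0 1 + y.1 1 0)
    have h4 := sq_abs (y.1 0 0 - y.1 1 1)
    nlinarith [mul_nonneg (abs_nonneg (y.1 0 1 + y.1 1 0)) (abs_nonneg (y.1 0 0 - y.1 1 1))]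
  exact (pow_le_pow_iff_left₀ dist_nonneg (by positivity) two_ne_zero).1 h2

/-! ## Calculus -/

theorem FST_mv (h h' : ℝ → ℝ) (K u : ℝ) (hd : ∀ v, HasDerivAt h (h' v) v) (hb : ∀ v, |v| ≤ |u| → |h' v| ≤ K) :
    |h u - h 0| ≤ K * |u| := by
  have h1 : ∀ v ∈ Icc (-|u|) |u|, HasDerivWithinAt h (h' v) (Icc (-|u|) |u|) v := fun v _ => (hd v).hasDerivWithinAt
  have h2 : ∀ v ∈ Icc (-|u|) |u|, ‖h' v‖ ≤ K := fun v hv => hb v (abs_le.2 hv)
  have h3 := (convex_Icc (-|u|) |u|).norm_image_sub_le_of_norm_hasDerivWithin_le h1 h2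
    (x := 0) (y := u) ⟨by simp, by simp⟩ ⟨neg_abs_le u, le_abs_self u⟩
  rw [Real.norm_eq_abs, Real.norm_eq_abs, sub_zero] at h3
  exact h3

theorem FST_gr (f f' : ℝ → ℝ) (K : ℝ) (hd : ∀ v, HasDerivAt f (f' v) v) (hb : ∀ v, |f' v| ≤ K * f v) (u : ℝ) :
    f u ≤ Real.exp (K * |u|) * f 0 := by
  rcases le_total 0 u with hu | hu
  · have h1 : ∀ v, HasDerivAt (fun v => Real.exp (-(K * v)) * f v) (Real.exp (-(K * v)) * -(K * 1) * f v + Real.exp (-(K * v)) * f' v) v := by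
      intro v
      exact ((((hasDerivAt_id v).const_mul K).neg).exp).mul (hd v)
    have h2 : Antitone (fun v => Real.exp (-(K * v)) * f v) := by
      apply antitone_of_deriv_nonpos (fun v => (h1 v).differentiableAt)
      intro v
      rw [(h1 v).deriv]
      have h3 := Real.exp_pos (-(K * v))
      have h4 := (abs_le.1 (hb v)).2
      nlinarith
    have h5 := h2 hu
    simp only [mul_zero, neg_zero, Real.exp_zero, one_mul] at h5
    rw [abs_of_nonneg hu]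
    have h6 : Real.exp (K * u) * (Real.exp (-(K * u)) * f u) ≤ Real.exp (K * u) * f 0 :=
      mul_le_mul_of_nonneg_left h5 (Real.exp_pos _).le
    rwa [← mul_assoc, ← Real.exp_add, add_neg_cancel, Real.exp_zero, one_mul] at h6
  · have h1 : ∀ v, HasDerivAt (fun v => Real.exp (K * v) * f v) (Real.exp (K * v) * (K * 1) * f v + Real.exp (K * v) * f' v) v := by
      intro v
      exact (((hasDerivAt_id v).const_mul K).exp).mul (hd v)
    have h2 : Monotone (fun v => Real.exp (K * v) * f v) := by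
      apply monotone_of_deriv_nonneg (fun v => (h1 v).differentiableAt)
      intro v
      rw [(h1 v).deriv]
      have h3 := Real.exp_pos (K * v)
      have h4 := (abs_le.1 (hb v)).1
      nlinarith
    have h5 := h2 hu
    simp only [mul_zero, Real.exp_zero, one_mul] at h5
    rw [abs_of_nonpos hu]
    have h6 : Real.exp (-(K * u)) * (Real.exp (K * u) * f u) ≤ Real.exp (-(K * u)) * f 0 :=
      mul_le_mul_of_nonneg_left h5 (Real.exp_pos _).le
    rw [← mul_assoc, ← Real.exp_add, neg_add_cancel, Real.exp_zero, one_mul] at h6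
    rwa [mul_neg]

/-! ## The potential -/

theorem FST_cdi0 : cdi 0 = I := by
  apply UpperHalfPlane.ext
  rw [VCD_cdi 0 (by simp), UpperHalfPlane.coe_I]
  simp

theorem FST_U0 (U : ℍ → ℝ) (g : SL(2, ℝ)) : Ug U g 0 = U (g • I) := by
  unfold Ug
  rw [FST_cdi0]

theorem FST_U (Γ : Subgroup SL(2, ℝ)) (δ : ℝ) (B : ℕ → ℝ) (U : ℍ → ℝ) (hU : Pot Γ δ B U) (z : ℍ) : |U z - 1| ≤ δ := by
  have h1 := hU.near (toSL2R z) 0 (by simp) 0 (by norm_num)
  rw [norm_iteratedFDeriv_zero, Real.norm_eq_abs, FST_U0, toSL2R_smul_I] at h1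
  exact h1

theorem FST_fd (Γ : Subgroup SL(2, ℝ)) (δ : ℝ) (B : ℕ → ℝ) (U : ℍ → ℝ) (hU : Pot Γ δ B U) (g : SL(2, ℝ)) (v : ℂ) (hv : ‖v‖ ≤ 1) :
    ‖fderiv ℝ (Ug U g) v‖ ≤ δ := by
  have h1 := hU.near g v hv 1 (by norm_num)
  rw [norm_iteratedFDeriv_one, fderiv_sub_const] at h1
  exact h1

theorem FST_n2 (Γ : Subgroup SL(2, ℝ)) (δ : ℝ) (B : ℕ → ℝ) (U : ℍ → ℝ) (hU : Pot Γ δ B U) (g : SL(2, ℝ)) : |n2 U g| ≤ δ := by
  have h1 := FST_fd Γ δ B U hU g 0 (by simp)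
  have h2 := (fderiv ℝ (Ug U g) 0).le_opNorm Complex.I
  rw [Complex.norm_I, mul_one] at h2
  exact h2.trans h1

theorem FST_diff (Γ : Subgroup SL(2, ℝ)) (δ : ℝ) (B : ℕ → ℝ) (U : ℍ → ℝ) (hU : Pot Γ δ B U) (g : SL(2, ℝ)) (v : ℂ) (hv : ‖v‖ < 2) :
    DifferentiableAt ℝ (Ug U g) v := by
  have h1 : ContDiffOn ℝ ∞ (QU.onC U) {w : ℂ | 0 < w.im} := hU.smooth
  have h2 := VCD_smooth g
  have h3 : ContDiffOn ℝ ∞ (fun w : ℂ => QU.onC U ((g • cdi w : ℍ) : ℂ)) (Metric.ball 0 2) :=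
    h1.comp h2 (fun w _ => (g • cdi w).im_pos)
  have h4 : Ug U g = fun w : ℂ => QU.onC U ((g • cdi w : ℍ) : ℂ) := by
    funext w
    unfold Ug QU.onC
    rw [ofComplex_apply]
  rw [h4]
  have h5 : v ∈ Metric.ball (0 : ℂ) 2 := by
    rw [Metric.mem_ball, dist_zero_right]
    exact hv
  exact (h3.contDiffAt (Metric.isOpen_ball.mem_nhds h5)).differentiableAt (by simp)

theorem FST_lip (Γ : Subgroup SL(2, ℝ)) (δ : ℝ) (B : ℕ → ℝ) (U : ℍ → ℝ) (hU : Pot Γ δ B U) (g : SL(2, ℝ)) (v : ℂ) (hv : ‖v‖ ≤ 1) :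
    |Ug U g v - Ug U g 0| ≤ δ * ‖v‖ := by
  have h1 : ∀ w ∈ Metric.closedBall (0 : ℂ) 1, DifferentiableAt ℝ (Ug U g) w := by
    intro w hw
    rw [mem_closedBall_zero_iff] at hw
    exact FST_diff Γ δ B U hU g w (by linarith)
  have h2 : ∀ w ∈ Metric.closedBall (0 : ℂ) 1, ‖fderiv ℝ (Ug U g) w‖ ≤ δ := by
    intro w hw
    rw [mem_closedBall_zero_iff] at hw
    exact FST_fd Γ δ B U hU g w hw
  have h3 := (convex_closedBall (0 : ℂ) 1).norm_image_sub_le_of_norm_fderiv_le h1 h2 (x := 0) (y := v) (by simp) (by simpa using hv)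
  rw [sub_zero, Real.norm_eq_abs] at h3
  exact h3

theorem FST_rho (Γ : Subgroup SL(2, ℝ)) (B : ℕ → ℝ) (U : ℍ → ℝ) (hU : Pot Γ (1 / 8) B U) (E : ℝ) (hE : |E| ≤ 1 / 8) (g : SL(2, ℝ)) :
    3 / 4 ≤ rho U E g ∧ rho U E g ≤ 5 / 4 ∧ |kap U E g| ≤ 1 / 8 ∧ rho U E g ^ 2 = U (g • I) + 2 * E := by
  have h1 := abs_le.1 (FST_U Γ _ B U hU (g • I))
  have h2 := abs_le.1 hE
  have h3 := FST_n2 Γ _ B U hU g
  have e1 : (3 : ℝ) / 4 ≤ rho U E g := by
    unfold rho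
    apply Real.le_sqrt_of_sq_le
    linarith
  have e2 : rho U E g ≤ 5 / 4 := by
    unfold rho
    rw [Real.sqrt_le_left (by norm_num)]
    linarith
  refine ⟨e1, e2, ?_, ?_⟩
  · unfold kap
    rw [abs_div, abs_of_pos (show 0 < 2 * rho U E g by linarith), div_le_iff₀ (by linarith)]
    linarith
  · unfold rho
    rw [Real.sq_sqrt (by linarith)]

theorem FST_exp2 : Real.exp 2 < 9 := by
  have h1 := Real.exp_one_lt_d9
  have h2 : Real.exp 2 = Real.exp 1 * Real.exp 1 := by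
    rw [← Real.exp_add]
    norm_num
  have h3 := Real.exp_pos 1
  rw [h2]
  nlinarith

/-! ## The orbit -/

theorem FST_dx (Γ : Subgroup SL(2, ℝ)) (δ : ℝ) (B : ℕ → ℝ) (D : Dyn) (hD : OKD Γ δ B D) (E : ℝ) (hE : |E| ≤ 1 / 8) (g : SL(2, ℝ)) (u : ℝ) (i : Fin 2) :
    HasDerivAt (fun s => (g⁻¹ * D.fl E s g).1 i 0)
      ((g⁻¹ * D.fl E u g).1 i 0 * (rho D.U E (D.fl E u g) / 2) - (g⁻¹ * D.fl E u g).1 i 1 * (kap D.U E (D.fl E u g) / 2)) u ∧
    HasDerivAt (fun s => (g⁻¹ * D.fl E s g).1 i 1)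
      ((g⁻¹ * D.fl E u g).1 i 0 * (kap D.U E (D.fl E u g) / 2) - (g⁻¹ * D.fl E u g).1 i 1 * (rho D.U E (D.fl E u g) / 2)) u := by
  have e : ∀ (s : ℝ) (j : Fin 2), (g⁻¹ * D.fl E s g).1 i j = (g⁻¹).1 i 0 * (D.fl E s g).1 0 j + (g⁻¹).1 i 1 * (D.fl E s g).1 1 j := by
    intro s j
    show ((g⁻¹).1 * (D.fl E s g).1) i j = _
    rw [Matrix.mul_apply, Fin.sum_univ_two]
  have hd := hD.dfl E u g hE
  have key : ∀ j : Fin 2, HasDerivAt (fun s => (g⁻¹ * D.fl E s g).1 i j)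
      ((g⁻¹).1 i 0 * (((D.fl E u g).1 * XX D.U E (D.fl E u g)) 0 j) + (g⁻¹).1 i 1 * (((D.fl E u g).1 * XX D.U E (D.fl E u g)) 1 j)) u := by
    intro j
    have h1 := ((hd 0 j).const_mul ((g⁻¹).1 i 0)).add ((hd 1 j).const_mul ((g⁻¹).1 i 1))
    refine h1.congr_of_eventuallyEq (Filter.Eventually.of_forall fun s => ?_)
    exact e s j
  have x00 : XX D.U E (D.fl E u g) 0 0 = rho D.U E (D.fl E u g) / 2 := by
    simp [XX, A0, K0]
    ring
  have x01 : XX D.U E (D.fl E u g) 0 1 = kap D.U E (D.fl E u g) / 2 := by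
    simp [XX, A0, K0]
    ring
  have x10 : XX D.U E (D.fl E u g) 1 0 = -(kap D.U E (D.fl E u g) / 2) := by
    simp [XX, A0, K0]
    ring
  have x11 : XX D.U E (D.fl E u g) 1 1 = -(rho D.U E (D.fl E u g) / 2) := by
    simp [XX, A0, K0]
    ring
  constructor
  · refine (key 0).congr_deriv ?_
    rw [e u 0, e u 1, Matrix.mul_apply, Matrix.mul_apply, Fin.sum_univ_two, Fin.sum_univ_two, x00, x10]
    ring
  · refine (key 1).congr_deriv ?_
    rw [e u 0, e u 1, Matrix.mul_apply, Matrix.mul_apply, Fin.sum_univ_two, Fin.sum_univ_two, x01, x11]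
    ring

theorem FST_one : ∀ i : Fin 2, (1 : Matrix (Fin 2) (Fin 2) ℝ) i 0 ^ 2 + (1 : Matrix (Fin 2) (Fin 2) ℝ) i 1 ^ 2 = 1 := by
  rw [Fin.forall_fin_two]
  constructor <;> simp

/-- the entries of `x(u) = g⁻¹ fl E u g` for `|u| ≤ 1` -/
theorem FST_x (Γ : Subgroup SL(2, ℝ)) (B : ℕ → ℝ) (D : Dyn) (hD : OKD Γ (1 / 8) B D) (E : ℝ) (hE : |E| ≤ 1 / 8) (g : SL(2, ℝ)) (u : ℝ) (hu : |u| ≤ 1) (i j : Fin 2) :
    |(g⁻¹ * D.fl E u g).1 i j| ≤ 3 ∧ |(g⁻¹ * D.fl E u g).1 i j - (1 : Matrix (Fin 2) (Fin 2) ℝ) i j| ≤ 3 * |u| := by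
  have hr := fun v => FST_rho Γ B D.U hD.pot E hE (D.fl E v g)
  have h0 : g⁻¹ * D.fl E 0 g = 1 := by
    rw [hD.fl0, inv_mul_cancel]
  have h1 : ∀ i j, (g⁻¹ * D.fl E 0 g).1 i j = (1 : Matrix (Fin 2) (Fin 2) ℝ) i j := by
    intro i j
    rw [h0]
    rfl
  have hdx := fun v => FST_dx Γ _ B D hD E hE g v i
  -- the square norm of the row
  have hS : ∀ v, |v| ≤ 1 → (g⁻¹ * D.fl E v g).1 i 0 ^ 2 + (g⁻¹ * D.fl E v g).1 i 1 ^ 2 ≤ 9 := by
    intro v hv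
    have hd : ∀ v, HasDerivAt (fun s => (g⁻¹ * D.fl E s g).1 i 0 ^ 2 + (g⁻¹ * D.fl E s g).1 i 1 ^ 2)
        (rho D.U E (D.fl E v g) * ((g⁻¹ * D.fl E v g).1 i 0 ^ 2 - (g⁻¹ * D.fl E v g).1 i 1 ^ 2)) v := by
      intro v
      refine (((hdx v).1.pow 2).add ((hdx v).2.pow 2)).congr_deriv ?_
      simp only [Nat.cast_ofNat]
      ring
    have hb : ∀ v, |rho D.U E (D.fl E v g) * ((g⁻¹ * D.fl E v g).1 i 0 ^ 2 - (g⁻¹ * D.fl E v g).1 i 1 ^ 2)| ≤
        2 * ((g⁻¹ * D.fl E v g).1 i 0 ^ 2 + (g⁻¹ * D.fl E v g).1 i 1 ^ 2) := by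
      intro v
      obtain ⟨e1, e2, -, -⟩ := hr v
      have p0 := sq_nonneg ((g⁻¹ * D.fl E v g).1 i 0)
      have p1 := sq_nonneg ((g⁻¹ * D.fl E v g).1 i 1)
      rw [abs_mul, abs_of_pos (show 0 < rho D.U E (D.fl E v g) by linarith)]
      have h3 : |(g⁻¹ * D.fl E v g).1 i 0 ^ 2 - (g⁻¹ * D.fl E v g).1 i 1 ^ 2| ≤
          (g⁻¹ * D.fl E v g).1 i 0 ^ 2 + (g⁻¹ * D.fl E v g).1 i 1 ^ 2 := by
        rw [abs_le]
        constructor <;> linarith
      exact mul_le_mul (by linarith) h3 (abs_nonneg _) (by norm_num)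
    have h4 := FST_gr _ _ 2 hd hb v
    simp only [h1] at h4
    have h5 : (1 : Matrix (Fin 2) (Fin 2) ℝ) i 0 ^ 2 + (1 : Matrix (Fin 2) (Fin 2) ℝ) i 1 ^ 2 = 1 := FST_one i
    rw [h5, mul_one] at h4
    have h6 : Real.exp (2 * |v|) ≤ Real.exp 2 := Real.exp_le_exp.2 (by linarith)
    have h7 := FST_exp2
    linarith
  have hx : ∀ v, |v| ≤ 1 → |(g⁻¹ * D.fl E v g).1 i 0| ≤ 3 ∧ |(g⁻¹ * D.fl E v g).1 i 1| ≤ 3 := by
    intro v hv
    have h := hS v hv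
    constructor
    · apply abs_le_of_sq_le_sq (b := 3) _ (by norm_num)
      nlinarith [sq_nonneg ((g⁻¹ * D.fl E v g).1 i 1)]
    · apply abs_le_of_sq_le_sq (b := 3) _ (by norm_num)
      nlinarith [sq_nonneg ((g⁻¹ * D.fl E v g).1 i 0)]
  have hbd : ∀ (x y r k : ℝ), |x| ≤ 3 → |y| ≤ 3 → |r| ≤ 5 / 4 → |k| ≤ 5 / 4 → (|r| ≤ 1 / 8 ∨ |k| ≤ 1 / 8) → |x * (r / 2) - y * (k / 2)| ≤ 3 := by
    intro x y r k hx hy hr hk hrk
    have e1 : |x * (r / 2) - y * (k / 2)| ≤ |x * (r / 2)| + |y * (k / 2)| := abs_sub _ _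
    rw [abs_mul, abs_mul, abs_div, abs_div, abs_two] at e1
    have hr0 := abs_nonneg r
    have hk0 := abs_nonneg k
    have hx0 := abs_nonneg x
    have hy0 := abs_nonneg y
    have e2 : |x| * (|r| / 2) ≤ 3 * (|r| / 2) := mul_le_mul_of_nonneg_right hx (by positivity)
    have e3 : |y| * (|k| / 2) ≤ 3 * (|k| / 2) := mul_le_mul_of_nonneg_right hy (by positivity)
    rcases hrk with h | h <;> linarith
  have hj : j = 0 ∨ j = 1 := by
    fin_cases j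
    · left; rfl
    · right; rfl
  have hrr : ∀ v, |rho D.U E (D.fl E v g)| ≤ 5 / 4 := by
    intro v
    obtain ⟨e1, e2, -, -⟩ := hr v
    rw [abs_of_pos (by linarith)]
    exact e2
  rcases hj with rfl | rfl
  · refine ⟨(hx u hu).1, ?_⟩
    have h := FST_mv (fun s => (g⁻¹ * D.fl E s g).1 i 0) _ 3 u (fun v => (hdx v).1) (fun v hv => by
      have hv1 : |v| ≤ 1 := hv.trans hu
      exact hbd _ _ _ _ (hx v hv1).1 (hx v hv1).2 (hrr v) ((hr v).2.2.1.trans (by norm_num)) (Or.inr (hr v).2.2.1))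
    rw [h1] at h
    exact h
  · refine ⟨(hx u hu).2, ?_⟩
    have h := FST_mv (fun s => (g⁻¹ * D.fl E s g).1 i 1) _ 3 u (fun v => (hdx v).2) (fun v hv => by
      have hv1 : |v| ≤ 1 := hv.trans hu
      exact hbd _ _ _ _ (hx v hv1).1 (hx v hv1).2 ((hr v).2.2.1.trans (by norm_num)) (hrr v) (Or.inl (hr v).2.2.1))
    rw [h1] at h
    exact h

theorem FST_rl (Γ : Subgroup SL(2, ℝ)) (B : ℕ → ℝ) (D : Dyn) (hD : OKD Γ (1 / 8) B D) (E : ℝ) (hE : |E| ≤ 1 / 8) (g : SL(2, ℝ)) (u : ℝ) (hu : |u| ≤ 1) :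
    |rho D.U E (D.fl E u g) - rho D.U E g| ≤ 3 * |u| := by
  obtain ⟨r1, r2, -, r3⟩ := FST_rho Γ B D.U hD.pot E hE (D.fl E u g)
  obtain ⟨s1, s2, -, s3⟩ := FST_rho Γ B D.U hD.pot E hE g
  have hU : |D.U (D.fl E u g • I) - D.U (g • I)| ≤ 3 * |u| := by
    have e1 : D.fl E u g • I = g • ((g⁻¹ * D.fl E u g) • I : ℍ) := by
      rw [← mul_smul, mul_inv_cancel_left]
    have hv : ‖cd ((g⁻¹ * D.fl E u g) • I)‖ ≤ 12 * |u| := by
      have h1 := (VCD_le ((g⁻¹ * D.fl E u g) • I)).trans (FST_dist (g⁻¹ * D.fl E u g))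
      have x00 := (FST_x Γ B D hD E hE g u hu 0 0).2
      have x01 := (FST_x Γ B D hD E hE g u hu 0 1).2
      have x10 := (FST_x Γ B D hD E hE g u hu 1 0).2
      have x11 := (FST_x Γ B D hD E hE g u hu 1 1).2
      rw [show (1 : Matrix (Fin 2) (Fin 2) ℝ) 0 0 = 1 from rfl] at x00
      rw [show (1 : Matrix (Fin 2) (Fin 2) ℝ) 0 1 = 0 from rfl, sub_zero] at x01
      rw [show (1 : Matrix (Fin 2) (Fin 2) ℝ) 1 0 = 0 from rfl, sub_zero] at x10
      rw [show (1 : Matrix (Fin 2) (Fin 2) ℝ) 1 1 = 1 from rfl] at x11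
      have h2 := abs_add_le ((g⁻¹ * D.fl E u g).1 0 1) ((g⁻¹ * D.fl E u g).1 1 0)
      have h3 : |(g⁻¹ * D.fl E u g).1 0 0 - (g⁻¹ * D.fl E u g).1 1 1| ≤ |(g⁻¹ * D.fl E u g).1 0 0 - 1| + |(g⁻¹ * D.fl E u g).1 1 1 - 1| := by
        rw [show (g⁻¹ * D.fl E u g).1 0 0 - (g⁻¹ * D.fl E u g).1 1 1 = ((g⁻¹ * D.fl E u g).1 0 0 - 1) - ((g⁻¹ * D.fl E u g).1 1 1 - 1) by ring]
        exact abs_sub _ _
      linarith
    rcases le_total ‖cd ((g⁻¹ * D.fl E u g) • I)‖ 1 with h | h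
    · have h1 := FST_lip Γ _ B D.U hD.pot g _ h
      rw [FST_U0] at h1
      unfold Ug at h1
      rw [VCD_cdicd, ← e1] at h1
      have := abs_nonneg u
      linarith
    · have h1 := FST_U Γ _ B D.U hD.pot (D.fl E u g • I)
      have h2 := FST_U Γ _ B D.U hD.pot (g • I)
      have h3 : |D.U (D.fl E u g • I) - D.U (g • I)| ≤ |D.U (D.fl E u g • I) - 1| + |D.U (g • I) - 1| := by
        rw [show D.U (D.fl E u g • I) - D.U (g • I) = (D.U (D.fl E u g • I) - 1) - (D.U (g • I) - 1) by ring]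
        exact abs_sub _ _
      linarith
  have h1 : (rho D.U E (D.fl E u g) - rho D.U E g) * (rho D.U E (D.fl E u g) + rho D.U E g) = D.U (D.fl E u g • I) - D.U (g • I) := by
    linear_combination r3 - s3
  rw [← h1, abs_mul, abs_of_pos (show 0 < rho D.U E (D.fl E u g) + rho D.U E g by linarith)] at hU
  have h2 := abs_nonneg (rho D.U E (D.fl E u g) - rho D.U E g)
  nlinarith

/-- the two functions which vanish to the second order -/
theorem FST_PQ (Γ : Subgroup SL(2, ℝ)) (B : ℕ → ℝ) (D : Dyn) (hD : OKD Γ (1 / 8) B D) (E : ℝ) (hE : |E| ≤ 1 / 8) (g : SL(2, ℝ)) (u : ℝ) (hu : |u| ≤ 1) :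
    |Real.exp (-(rho D.U E g * u / 2)) * (g⁻¹ * D.fl E u g).1 0 0 - Real.exp (rho D.U E g * u / 2) * (g⁻¹ * D.fl E u g).1 1 1| ≤ 29 * u ^ 2 ∧
    |Real.exp (-(rho D.U E g * u / 2)) * (g⁻¹ * D.fl E u g).1 0 1 + Real.exp (rho D.U E g * u / 2) * (g⁻¹ * D.fl E u g).1 1 0| ≤ 25 * u ^ 2 := by
  obtain ⟨s1, s2, -, -⟩ := FST_rho Γ B D.U hD.pot E hE g
  have hr := fun v => FST_rho Γ B D.U hD.pot E hE (D.fl E v g)
  have hrl := fun v (hv : |v| ≤ 1) => FST_rl Γ B D hD E hE g v hv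
  have hx := fun v (hv : |v| ≤ 1) i j => FST_x Γ B D hD E hE g v hv i j
  have hdx := fun v i => FST_dx Γ _ B D hD E hE g v i
  have h00 : (g⁻¹ * D.fl E 0 g) = 1 := by
    rw [hD.fl0, inv_mul_cancel]
  set ρ := rho D.U E g with hρ
  -- the exponentials
  have hexp : ∀ v, |v| ≤ 1 → Real.exp (-(ρ * v / 2)) ≤ 3 ∧ Real.exp (ρ * v / 2) ≤ 3 := by
    intro v hv
    have hv' := abs_le.1 hv
    have h1 := Real.exp_one_lt_d9
    constructor
    · have : Real.exp (-(ρ * v / 2)) ≤ Real.exp 1 := Real.exp_le_exp.2 (by nlinarith)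
      linarith
    · have : Real.exp (ρ * v / 2) ≤ Real.exp 1 := Real.exp_le_exp.2 (by nlinarith)
      linarith
  have hde : ∀ v, HasDerivAt (fun v => Real.exp (-(ρ * v / 2))) (Real.exp (-(ρ * v / 2)) * -(ρ * 1 / 2)) v := by
    intro v
    exact ((((hasDerivAt_id v).const_mul ρ).div_const 2).neg).exp
  have hde' : ∀ v, HasDerivAt (fun v => Real.exp (ρ * v / 2)) (Real.exp (ρ * v / 2) * (ρ * 1 / 2)) v := by
    intro v
    exact (((hasDerivAt_id v).const_mul ρ).div_const 2).exp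
  have hprod : ∀ (e x K : ℝ), 0 ≤ e → e ≤ 3 → |x| ≤ K → |e * x| ≤ 3 * K := by
    intro e x K he he3 hx
    rw [abs_mul, abs_of_nonneg he]
    exact mul_le_mul he3 hx (abs_nonneg _) (by norm_num)
  have i01 : (1 : Matrix (Fin 2) (Fin 2) ℝ) 0 1 = 0 := rfl
  have i10 : (1 : Matrix (Fin 2) (Fin 2) ℝ) 1 0 = 0 := rfl
  have hP : ∀ v, |v| ≤ 1 → |Real.exp (-(ρ * v / 2)) * (g⁻¹ * D.fl E v g).1 0 0 - Real.exp (ρ * v / 2) * (g⁻¹ * D.fl E v g).1 1 1| ≤ 29 * |v| * |v| := by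
    intro v hv
    have hd : ∀ w, HasDerivAt (fun w => Real.exp (-(ρ * w / 2)) * (g⁻¹ * D.fl E w g).1 0 0 - Real.exp (ρ * w / 2) * (g⁻¹ * D.fl E w g).1 1 1)
        ((rho D.U E (D.fl E w g) - ρ) / 2 * (Real.exp (-(ρ * w / 2)) * (g⁻¹ * D.fl E w g).1 0 0 + Real.exp (ρ * w / 2) * (g⁻¹ * D.fl E w g).1 1 1)
          - kap D.U E (D.fl E w g) / 2 * (Real.exp (-(ρ * w / 2)) * (g⁻¹ * D.fl E w g).1 0 1 + Real.exp (ρ * w / 2) * (g⁻¹ * D.fl E w g).1 1 0)) w := by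
      intro w
      refine (((hde w).mul (hdx w 0).1).sub ((hde' w).mul (hdx w 1).2)).congr_deriv ?_
      ring
    have h := FST_mv _ _ (29 * |v|) v hd (fun w hw => by
      have hw1 : |w| ≤ 1 := hw.trans hv
      obtain ⟨e1, e2⟩ := hexp w hw1
      have a1 := hprod _ _ _ (Real.exp_pos _).le e1 (hx w hw1 0 0).1
      have a2 := hprod _ _ _ (Real.exp_pos _).le e2 (hx w hw1 1 1).1
      have b1 := (hx w hw1 0 1).2
      have b2 := (hx w hw1 1 0).2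
      rw [i01, sub_zero] at b1
      rw [i10, sub_zero] at b2
      have a3 := hprod _ _ _ (Real.exp_pos _).le e1 b1
      have a4 := hprod _ _ _ (Real.exp_pos _).le e2 b2
      have r1 := hrl w hw1
      obtain ⟨-, -, k1, -⟩ := hr w
      set a := Real.exp (-(ρ * w / 2)) * (g⁻¹ * D.fl E w g).1 0 0
      set d := Real.exp (ρ * w / 2) * (g⁻¹ * D.fl E w g).1 1 1
      set b := Real.exp (-(ρ * w / 2)) * (g⁻¹ * D.fl E w g).1 0 1
      set c := Real.exp (ρ * w / 2) * (g⁻¹ * D.fl E w g).1 1 0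
      have t1 : |(rho D.U E (D.fl E w g) - ρ) / 2 * (a + d) - kap D.U E (D.fl E w g) / 2 * (b + c)| ≤
          |rho D.U E (D.fl E w g) - ρ| / 2 * |a + d| + |kap D.U E (D.fl E w g)| / 2 * |b + c| := by
        refine (abs_sub _ _).trans (le_of_eq ?_)
        rw [abs_mul, abs_mul, abs_div, abs_div, abs_two]
      have t2 := abs_add_le a d
      have t3 := abs_add_le b c
      have t4 : |rho D.U E (D.fl E w g) - ρ| / 2 * |a + d| ≤ (3 * |w|) / 2 * 18 :=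
        mul_le_mul (by linarith) (by linarith) (abs_nonneg _) (by positivity)
      have t5 : |kap D.U E (D.fl E w g)| / 2 * |b + c| ≤ (1 / 8) / 2 * (18 * |w|) :=
        mul_le_mul (by linarith) (by linarith) (abs_nonneg _) (by norm_num)
      have t6 := abs_nonneg w
      linarith)
    simp only [h00, mul_zero, zero_div, neg_zero, Real.exp_zero, one_mul] at h
    rw [show (1 : SL(2, ℝ)).1 0 0 = 1 from rfl, show (1 : SL(2, ℝ)).1 1 1 = 1 from rfl, sub_self, sub_zero] at h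
    exact h
  have hQ : ∀ v, |v| ≤ 1 → |Real.exp (-(ρ * v / 2)) * (g⁻¹ * D.fl E v g).1 0 1 + Real.exp (ρ * v / 2) * (g⁻¹ * D.fl E v g).1 1 0| ≤ 25 * |v| * |v| := by
    intro v hv
    have hd : ∀ w, HasDerivAt (fun w => Real.exp (-(ρ * w / 2)) * (g⁻¹ * D.fl E w g).1 0 1 + Real.exp (ρ * w / 2) * (g⁻¹ * D.fl E w g).1 1 0)
        ((rho D.U E (D.fl E w g) + ρ) / 2 * (Real.exp (ρ * w / 2) * (g⁻¹ * D.fl E w g).1 1 0 - Real.exp (-(ρ * w / 2)) * (g⁻¹ * D.fl E w g).1 0 1)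
          + kap D.U E (D.fl E w g) / 2 * (Real.exp (-(ρ * w / 2)) * (g⁻¹ * D.fl E w g).1 0 0 - Real.exp (ρ * w / 2) * (g⁻¹ * D.fl E w g).1 1 1)) w := by
      intro w
      refine (((hde w).mul (hdx w 0).2).add ((hde' w).mul (hdx w 1).1)).congr_deriv ?_
      ring
    have h := FST_mv _ _ (25 * |v|) v hd (fun w hw => by
      have hw1 : |w| ≤ 1 := hw.trans hv
      obtain ⟨e1, e2⟩ := hexp w hw1
      have b1 := (hx w hw1 0 1).2
      have b2 := (hx w hw1 1 0).2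
      rw [i01, sub_zero] at b1
      rw [i10, sub_zero] at b2
      have a3 := hprod _ _ _ (Real.exp_pos _).le e1 b1
      have a4 := hprod _ _ _ (Real.exp_pos _).le e2 b2
      have a5 := hP w hw1
      obtain ⟨k0, k2, k1, -⟩ := hr w
      set a := Real.exp (-(ρ * w / 2)) * (g⁻¹ * D.fl E w g).1 0 0
      set d := Real.exp (ρ * w / 2) * (g⁻¹ * D.fl E w g).1 1 1
      set b := Real.exp (-(ρ * w / 2)) * (g⁻¹ * D.fl E w g).1 0 1
      set c := Real.exp (ρ * w / 2) * (g⁻¹ * D.fl E w g).1 1 0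
      have t1 : |(rho D.U E (D.fl E w g) + ρ) / 2 * (c - b) + kap D.U E (D.fl E w g) / 2 * (a - d)| ≤
          |rho D.U E (D.fl E w g) + ρ| / 2 * |c - b| + |kap D.U E (D.fl E w g)| / 2 * |a - d| := by
        refine (abs_add_le _ _).trans (le_of_eq ?_)
        rw [abs_mul, abs_mul, abs_div, abs_div, abs_two]
      have t3 : |c - b| ≤ |c| + |b| := abs_sub _ _
      have t6 := abs_nonneg w
      have t7 : |a - d| ≤ 29 * |w| := by
        refine a5.trans ?_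
        nlinarith
      rw [abs_of_pos (show 0 < rho D.U E (D.fl E w g) + ρ by linarith)] at t1
      have t4 : (rho D.U E (D.fl E w g) + ρ) / 2 * |c - b| ≤ (5 / 4) * (18 * |w|) :=
        mul_le_mul (by linarith) (by linarith) (abs_nonneg _) (by norm_num)
      have t5 : |kap D.U E (D.fl E w g)| / 2 * |a - d| ≤ (1 / 8) / 2 * (29 * |w|) :=
        mul_le_mul (by linarith) t7 (abs_nonneg _) (by norm_num)
      linarith)
    simp only [h00, mul_zero, zero_div, neg_zero, Real.exp_zero, one_mul] at h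
    rw [show (1 : SL(2, ℝ)).1 0 1 = 0 from rfl, show (1 : SL(2, ℝ)).1 1 0 = 0 from rfl, add_zero, sub_zero] at h
    exact h
  have e : |u| * |u| = u ^ 2 := by
    rw [← sq, sq_abs]
  have h1 := hP u hu
  have h2 := hQ u hu
  rw [mul_assoc, e] at h1 h2
  exact ⟨h1, h2⟩

theorem FST_am (t : ℝ) : (aM t)⁻¹ = aM (-t) := by
  have h : aM (-t) * aM t = 1 := by
    refine Matrix.SpecialLinearGroup.ext _ _ ?_
    intro i j
    show ((aM (-t)).1 * (aM t).1) i j = (1 : Matrix (Fin 2) (Fin 2) ℝ) i j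
    fin_cases i <;> fin_cases j <;> simp [aM, Matrix.mul_apply, Fin.sum_univ_two, ← Real.exp_add] <;> ring_nf
  exact (eq_inv_of_mul_eq_one_left h).symm

theorem FST_proof : FST_stmt := by
  intro Γ _
  refine ⟨1 / 8, 60, by norm_num, by norm_num, ?_⟩
  intro B D hD
  refine ⟨FST_U Γ _ B D.U hD.pot, ?_⟩
  intro E g hE
  obtain ⟨s1, s2, -, -⟩ := FST_rho Γ B D.U hD.pot E hE g
  refine ⟨by linarith, by linarith, ?_⟩
  intro s u hs hs1 hus
  have hu : |u| ≤ 1 := hus.trans hs1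
  constructor
  · intro i j
    have h := (FST_x Γ B D hD E hE g u hu i j).2
    linarith
  · have e1 : dist (D.fl E u g • I : ℍ) ((g * aM (rho D.U E g * u)) • I) = dist ((aM (-(rho D.U E g * u)) * (g⁻¹ * D.fl E u g)) • I : ℍ) I := by
      rw [← FST_am]
      rw [← dist_smul (g * aM (rho D.U E g * u)) ((((aM (rho D.U E g * u))⁻¹ * (g⁻¹ * D.fl E u g)) • I : ℍ)) I, ← mul_smul]
      congr 2
      group
    rw [e1]
    refine (FST_dist _).trans ?_
    obtain ⟨h1, h2⟩ := FST_PQ Γ B D hD E hE g u hu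
    have m : ∀ i j, (aM (-(rho D.U E g * u)) * (g⁻¹ * D.fl E u g)).1 i j =
        (aM (-(rho D.U E g * u))).1 i 0 * (g⁻¹ * D.fl E u g).1 0 j + (aM (-(rho D.U E g * u))).1 i 1 * (g⁻¹ * D.fl E u g).1 1 j := by
      intro i j
      show ((aM (-(rho D.U E g * u))).1 * (g⁻¹ * D.fl E u g).1) i j = _
      rw [Matrix.mul_apply, Fin.sum_univ_two]
    have a00 : (aM (-(rho D.U E g * u))).1 0 0 = Real.exp (-(rho D.U E g * u / 2)) := by
      simp [aM]
      ring_nf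
    have a01 : (aM (-(rho D.U E g * u))).1 0 1 = 0 := rfl
    have a10 : (aM (-(rho D.U E g * u))).1 1 0 = 0 := rfl
    have a11 : (aM (-(rho D.U E g * u))).1 1 1 = Real.exp (rho D.U E g * u / 2) := by
      simp [aM]
      ring_nf
    rw [m 0 1, m 1 0, m 0 0, m 1 1, a00, a01, a10, a11, zero_mul, zero_mul, zero_mul, zero_mul, add_zero, add_zero, zero_add, zero_add]
    have h3 := sq_nonneg u
    linarith

end

end Pool.Agent.VQ
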